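import Pool.Agent.ASO.Stmts4
import Pool.Agent.Helper3_SOR.XSG

/-!
# Squad ASO, row PPC: continuity of the local part
-/

open scoped BigOperators

noncomputable section

namespace Pool.Agent.PP.SO.H9P

theorem fin_P {α β : Type} [AddCommMonoid β] [Fintype α] (P : α → Prop) [DecidablePred P]
    (f : α → β) : ∑ᶠ (s : α) (_ : P s), f s = ∑ s ∈ Finset.univ.filter P, f s := by
  rw [finsum_eq_sum_of_fintype, Finset.sum_filter]
  exact Finset.sum_congr rfl fun s _ => finsum_eq_if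

section rl

variable (ℓ : ℕ) [Fact ℓ.Prime]

theorem l_mem : (ℓ : ℚ) ∈ SOR.Rl ℓ := natCast_mem (SOR.Rl ℓ) ℓ

theorem lp_mem (K : ℕ) : (ℓ : ℚ) ^ K ∈ SOR.Rl ℓ := pow_mem (l_mem ℓ) K

theorem inv_l : ¬ (ℓ : ℚ)⁻¹ ∈ SOR.Rl ℓ := by
  have hp : Nat.Prime ℓ := Fact.out
  intro h
  have h1 : ¬ ℓ ∣ ((ℓ : ℚ)⁻¹).den := h
  apply h1
  rw [Rat.inv_natCast_den_of_pos hp.pos]

theorem unit_of {a q : ℚ} (hq : q ∈ SOR.Rl ℓ) (ha : a = 1 + ℓ * q) : a ≠ 0 ∧ a⁻¹ ∈ SOR.Rl ℓ := by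
  have hp : Nat.Prime ℓ := Fact.out
  have hl0 : (ℓ : ℚ) ≠ 0 := by exact_mod_cast hp.ne_zero
  -- `a / ℓ` is not in the ring
  have h1 : ∀ b ∈ SOR.Rl ℓ, a ≠ ℓ * b := by
    intro b hb h
    apply inv_l ℓ
    have h2 : (ℓ : ℚ)⁻¹ = b - q := by
      rw [h] at ha
      field_simp
      linear_combination -ha
    rw [h2]
    exact sub_mem hb hq
  have ha0 : a ≠ 0 := by
    intro h
    exact h1 0 (zero_mem _) (by rw [h, mul_zero])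
  refine ⟨ha0, ?_⟩
  have hnum : ¬ (ℓ : ℤ) ∣ a.num := by
    rintro ⟨c, hc⟩
    have h2 : a * a.den = a.num := Rat.mul_den_eq_num a
    have ham : a ∈ SOR.Rl ℓ := by
      rw [ha]
      exact add_mem (one_mem _) (mul_mem (l_mem ℓ) hq)
    have hden : ¬ ℓ ∣ a.den := ham
    refine h1 (a / ℓ) (SOR.H3.rl_of_mul ℓ (a := c) hden ?_) (by field_simp)
    have h3 : a * a.den = ℓ * c := by
      rw [h2, hc]
      push_cast
      rfl
    field_simp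
    linear_combination h3
  refine SOR.H3.rl_of_mul ℓ (m := a.num.natAbs) (a := a.den * a.num.sign) ?_ ?_
  · intro h
    apply hnum
    exact Int.natCast_dvd.2 h
  · have h2 : a * a.den = a.num := Rat.mul_den_eq_num a
    have h3 : ((a.num.natAbs : ℕ) : ℚ) = (a.num : ℚ) * (a.num.sign : ℚ) := by
      have h4 : ((a.num.natAbs : ℕ) : ℤ) = a.num * a.num.sign := by
        rw [mul_comm, Int.sign_mul_self_eq_natAbs]
      have h5 := congrArg (fun z : ℤ => (z : ℚ)) h4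
      simp only [Int.cast_natCast, Int.cast_mul] at h5
      exact h5
    rw [h3, ← h2]
    push_cast
    field_simp

/-- two elements of the ring which are congruent modulo `ℓ ^ K` -/
def Go (K : ℕ) (a b : ℚ) : Prop :=
  a ∈ SOR.Rl ℓ ∧ b ∈ SOR.Rl ℓ ∧ ∃ q ∈ SOR.Rl ℓ, a - b = ℓ ^ K * q

variable {ℓ} {K : ℕ}

theorem Go.refl {a : ℚ} (ha : a ∈ SOR.Rl ℓ) : Go ℓ K a a :=
  ⟨ha, ha, 0, zero_mem _, by ring⟩

theorem Go.nat (n : ℕ) : Go ℓ K (n : ℚ) n := Go.refl (natCast_mem _ n)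

theorem Go.mul {a b c d : ℚ} (h : Go ℓ K a b) (h' : Go ℓ K c d) : Go ℓ K (a * c) (b * d) := by
  obtain ⟨ha, hb, q, hq, e⟩ := h
  obtain ⟨hc, hd, q', hq', e'⟩ := h'
  refine ⟨mul_mem ha hc, mul_mem hb hd, a * q' + q * d, add_mem (mul_mem ha hq') (mul_mem hq hd), ?_⟩
  linear_combination a * e' + d * e

theorem Go.add {a b c d : ℚ} (h : Go ℓ K a b) (h' : Go ℓ K c d) : Go ℓ K (a + c) (b + d) := by
  obtain ⟨ha, hb, q, hq, e⟩ := h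
  obtain ⟨hc, hd, q', hq', e'⟩ := h'
  refine ⟨add_mem ha hc, add_mem hb hd, q + q', add_mem hq hq', ?_⟩
  linear_combination e + e'

theorem Go.sum {α : Type} (S : Finset α) (f g : α → ℚ) (h : ∀ x ∈ S, Go ℓ K (f x) (g x)) :
    Go ℓ K (∑ x ∈ S, f x) (∑ x ∈ S, g x) := by
  classical
  induction S using Finset.induction_on with
  | empty => exact Go.refl (by simp [zero_mem])
  | insert a S ha ih =>
    rw [Finset.sum_insert ha, Finset.sum_insert ha]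
    exact (h a (Finset.mem_insert_self _ _)).add (ih fun x hx => h x (Finset.mem_insert_of_mem hx))

theorem Go.inv {a b : ℚ} (h : Go ℓ K a b) (ha : a ≠ 0) (hb : b ≠ 0) (ha' : a⁻¹ ∈ SOR.Rl ℓ)
    (hb' : b⁻¹ ∈ SOR.Rl ℓ) : Go ℓ K a⁻¹ b⁻¹ := by
  obtain ⟨-, -, q, hq, e⟩ := h
  refine ⟨ha', hb', -(q * a⁻¹ * b⁻¹), neg_mem (mul_mem (mul_mem hq ha') hb'), ?_⟩
  have h1 : a⁻¹ - b⁻¹ = -(a - b) * a⁻¹ * b⁻¹ := by
    field_simp
    ring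
  rw [h1, e]
  ring

/-- the difference, multiplied with a number with denominator `ℓ ^ K` -/
theorem Go.diff {a b r : ℚ} (h : Go ℓ K a b) (hr : (ℓ : ℚ) ^ K * r ∈ SOR.Rl ℓ) :
    r * a - r * b ∈ SOR.Rl ℓ := by
  obtain ⟨-, -, q, hq, e⟩ := h
  have h1 : r * a - r * b = ((ℓ : ℚ) ^ K * r) * q := by
    linear_combination r * e
  rw [h1]
  exact mul_mem hr hq

end rl

section ux

variable {ℓ : ℕ} [Fact ℓ.Prime] {K : ℕ} {V₀ : Type} [CommGroup V₀]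

/-- the hypotheses on `U`, `U'` -/
structure HU (ℓ : ℕ) [Fact ℓ.Prime] (K : ℕ) (U U' : Subgroup V₀ → ℚ) : Prop where
  a : ∀ W, W ≠ ⊥ → ∃ q ∈ SOR.Rl ℓ, U W = 1 + ℓ * q
  b : ∀ W, W ≠ ⊥ → ∃ q ∈ SOR.Rl ℓ, U' W = 1 + ℓ * q
  c : ∀ W, W ≠ ⊥ → ∃ q ∈ SOR.Rl ℓ, U W - U' W = ℓ ^ K * q

theorem ux_go {U U' : Subgroup V₀ → ℚ} (h : HU ℓ K U U') {W : Subgroup V₀} (hW : W ≠ ⊥) (x : V₀) :
    Go ℓ K (ux U W x) (ux U' W x) ∧ Go ℓ K (ux U W x)⁻¹ (ux U' W x)⁻¹ := by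
  unfold ux
  by_cases hx : x ∈ W
  · rw [if_pos hx, if_pos hx, inv_one]
    exact ⟨Go.refl (one_mem _), Go.refl (one_mem _)⟩
  · rw [if_neg hx, if_neg hx]
    obtain ⟨q, hq, e⟩ := h.a W hW
    obtain ⟨q', hq', e'⟩ := h.b W hW
    obtain ⟨h1, h2⟩ := unit_of ℓ hq e
    obtain ⟨h3, h4⟩ := unit_of ℓ hq' e'
    have h5 : Go ℓ K (U W) (U' W) := by
      refine ⟨?_, ?_, h.c W hW⟩
      · rw [e]
        exact add_mem (one_mem _) (mul_mem (l_mem ℓ) hq)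
      · rw [e']
        exact add_mem (one_mem _) (mul_mem (l_mem ℓ) hq')
    exact ⟨h5, h5.inv h1 h3 h2 h4⟩

end ux

theorem ppc : PpcStmt := by
  intro ℓ _ V₀ _ _ E₀ n c d F₁₃ F₁₂
  classical
  have := Fintype.ofFinite V₀
  have : Finite (MulAut V₀) := inferInstance
  have := Fintype.ofFinite (MulAut V₀)
  obtain ⟨K₀, hK₀⟩ := SOR.H3.exists_pow_fin ℓ
    ((Finset.univ : Finset (Set (SS n V₀))).image (fun L => mob F₁₃ L) ∪
      (Finset.univ : Finset (Set (SS n V₀))).image (fun L => mob F₁₂ L))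
  refine ⟨K₀, fun K hK U U' hU hU' hUU => ?_⟩
  have H : HU ℓ K U U' := ⟨hU, hU', hUU⟩
  have hpow : ∀ v : ℚ, (ℓ : ℚ) ^ K₀ * v ∈ SOR.Rl ℓ → (ℓ : ℚ) ^ K * v ∈ SOR.Rl ℓ := by
    intro v hv
    obtain ⟨j, rfl⟩ := Nat.exists_eq_add_of_le hK
    rw [add_comm, pow_add, mul_assoc]
    exact mul_mem (lp_mem ℓ j) hv
  have h13 : ∀ L, (ℓ : ℚ) ^ K * mob F₁₃ L ∈ SOR.Rl ℓ := fun L => hpow _ (hK₀ _
    (Finset.mem_union_left _ (Finset.mem_image_of_mem _ (Finset.mem_univ L))))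
  have h12 : ∀ L, (ℓ : ℚ) ^ K * mob F₁₂ L ∈ SOR.Rl ℓ := fun L => hpow _ (hK₀ _
    (Finset.mem_union_right _ (Finset.mem_image_of_mem _ (Finset.mem_univ L))))
  have hP : ∀ U : Subgroup V₀ → ℚ, PPd E₀ U c d F₁₃ F₁₂ =
      ∑ L ∈ Finset.univ.filter (fun L : Set (SS n V₀) => pL L ≠ ⊥ ∧ qL L ≠ ⊥),
        (mob F₁₃ L * P13 E₀ U c d L + mob F₁₂ L * P12 E₀ U c d L) := fun U =>
    fin_P (fun L : Set (SS n V₀) => pL L ≠ ⊥ ∧ qL L ≠ ⊥) _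
  rw [hP, hP, ← Finset.sum_sub_distrib]
  refine sum_mem fun L hL => ?_
  obtain ⟨hp, hq⟩ := (Finset.mem_filter.1 hL).2
  have g13 : Go ℓ K (P13 E₀ U c d L) (P13 E₀ U' c d L) := by
    unfold P13
    exact ((ux_go H hp c).1.mul (ux_go H hq d).1).mul (Go.nat _)
  have g12 : Go ℓ K (P12 E₀ U c d L) (P12 E₀ U' c d L) := by
    have hS : ∀ U : Subgroup V₀ → ℚ, P12 E₀ U c d L =
        ∑ σ ∈ Finset.univ.filter (fun σ : MulAut V₀ => σ ∈ EL E₀ L ∧ aL (c * σ d) L ≠ ⊥),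
          ux U (pL L) c * ux U (pL L) (σ d) / ux U (pL L) (c * σ d) *
            (ux U (aL (c * σ d) L) (c * σ d) * N12 E₀ (c * σ d) L) := fun U =>
      fin_P (fun σ : MulAut V₀ => σ ∈ EL E₀ L ∧ aL (c * σ d) L ≠ ⊥) _
    rw [hS, hS]
    refine Go.sum _ _ _ fun σ hσ => ?_
    have ha := (Finset.mem_filter.1 hσ).2.2
    rw [div_eq_mul_inv, div_eq_mul_inv]
    exact (((ux_go H hp c).1.mul (ux_go H hp (σ d)).1).mul (ux_go H hp (c * σ d)).2).mul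
      ((ux_go H ha (c * σ d)).1.mul (Go.nat _))
  have h1 : mob F₁₃ L * P13 E₀ U c d L + mob F₁₂ L * P12 E₀ U c d L -
      (mob F₁₃ L * P13 E₀ U' c d L + mob F₁₂ L * P12 E₀ U' c d L) =
      (mob F₁₃ L * P13 E₀ U c d L - mob F₁₃ L * P13 E₀ U' c d L) +
      (mob F₁₂ L * P12 E₀ U c d L - mob F₁₂ L * P12 E₀ U' c d L) := by ring
  rw [h1]
  exact add_mem (g13.diff (h13 L)) (g12.diff (h12 L))

end Pool.Agent.PP.SO.H9P
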