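import Pool.Agent.ASO.Stmts3

/-!
# Squad ASO, row MBI: Möbius inversion on the subsets of a finite set
-/

open scoped BigOperators

noncomputable section

namespace Pool.Agent.PP.SO.H9

theorem fin_P {α β : Type} [AddCommMonoid β] [Fintype α] (P : α → Prop) [DecidablePred P]
    (f : α → β) : ∑ᶠ (s : α) (_ : P s), f s = ∑ s ∈ Finset.univ.filter P, f s := by
  rw [finsum_eq_sum_of_fintype, Finset.sum_filter]
  exact Finset.sum_congr rfl fun s _ => finsum_eq_if

section moeb

open Classical

variable {A : Type} [Fintype A]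

theorem sub_fin (S : Set A) (f : Set A → ℚ) :
    ∑ M ∈ Finset.univ.filter (fun M : Set A => M ⊆ S), f M =
      ∑ m ∈ S.toFinset.powerset, f (m : Set A) := by
  symm
  refine Finset.sum_bij (fun m _ => (m : Set A)) ?_ ?_ ?_ ?_
  · intro m hm
    rw [Finset.mem_powerset] at hm
    refine Finset.mem_filter.2 ⟨Finset.mem_univ _, ?_⟩
    intro x hx
    exact Set.mem_toFinset.1 (hm hx)
  · intro m _ m' _ h
    exact Finset.coe_injective h
  · intro M hM
    have h1 := (Finset.mem_filter.1 hM).2
    refine ⟨M.toFinset, ?_, Set.coe_toFinset M⟩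
    rw [Finset.mem_powerset]
    exact Set.toFinset_subset_toFinset.2 h1
  · intro m _
    rfl

theorem alt (S : Set A) :
    ∑ M ∈ Finset.univ.filter (fun M : Set A => M ⊆ S), (-1 : ℚ) ^ M.ncard =
      if S = ∅ then 1 else 0 := by
  rw [sub_fin]
  have h1 := Finset.sum_powerset_neg_one_pow_card (x := S.toFinset)
  have h2 : (∑ m ∈ S.toFinset.powerset, (-1 : ℚ) ^ (m : Set A).ncard) =
      ((∑ m ∈ S.toFinset.powerset, (-1 : ℤ) ^ m.card : ℤ) : ℚ) := by
    push_cast
    refine Finset.sum_congr rfl fun m _ => ?_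
    rw [Set.ncard_coe_finset]
  rw [h2, h1]
  by_cases h : S = ∅
  · subst h
    simp
  · rw [if_neg h, if_neg (by simpa using h)]
    norm_num

/-- the sum over the sets between two given ones -/
theorem alt2 (T τ : Set A) (hT : T ⊆ τ) :
    ∑ L ∈ Finset.univ.filter (fun L : Set A => T ⊆ L ∧ L ⊆ τ), (-1 : ℚ) ^ (L \ T).ncard =
      if T = τ then 1 else 0 := by
  have h1 : ∑ L ∈ Finset.univ.filter (fun L : Set A => T ⊆ L ∧ L ⊆ τ), (-1 : ℚ) ^ (L \ T).ncard =
      ∑ M ∈ Finset.univ.filter (fun M : Set A => M ⊆ τ \ T), (-1 : ℚ) ^ M.ncard := by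
    refine Finset.sum_bij' (fun L _ => L \ T) (fun M _ => M ∪ T) ?_ ?_ ?_ ?_ ?_
    · intro L hL
      have h := (Finset.mem_filter.1 hL).2
      exact Finset.mem_filter.2 ⟨Finset.mem_univ _, Set.diff_subset_diff_left h.2⟩
    · intro M hM
      have h := (Finset.mem_filter.1 hM).2
      refine Finset.mem_filter.2 ⟨Finset.mem_univ _, Set.subset_union_right, ?_⟩
      exact Set.union_subset (h.trans Set.diff_subset) hT
    · intro L hL
      have h := (Finset.mem_filter.1 hL).2
      exact Set.diff_union_of_subset h.1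
    · intro M hM
      have h := (Finset.mem_filter.1 hM).2
      ext x
      constructor
      · rintro ⟨hx | hx, hx'⟩
        · exact hx
        · exact absurd hx hx'
      · intro hx
        exact ⟨Or.inl hx, (h hx).2⟩
    · intro L _
      rfl
  rw [h1, alt]
  by_cases h : T = τ
  · rw [if_pos h, if_pos]
    rw [h, Set.diff_self]
  · rw [if_neg h, if_neg]
    intro h2
    apply h
    exact Set.Subset.antisymm hT (Set.diff_eq_empty.1 h2)

theorem mob_eq (F : Set A → ℚ) (L : Set A) :
    mob F L = ∑ T ∈ Finset.univ.filter (fun T : Set A => T ⊆ L), (-1) ^ (L \ T).ncard * F T :=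
  fin_P (fun T : Set A => T ⊆ L) _

theorem alt3 (L : Set A) (hL : L.Nonempty) :
    ∑ T ∈ Finset.univ.filter (fun T : Set A => T ⊆ L), (-1 : ℚ) ^ (L \ T).ncard = 0 := by
  have h1 : ∑ T ∈ Finset.univ.filter (fun T : Set A => T ⊆ L), (-1 : ℚ) ^ (L \ T).ncard =
      ∑ M ∈ Finset.univ.filter (fun M : Set A => M ⊆ L), (-1 : ℚ) ^ M.ncard := by
    refine Finset.sum_bij' (fun T _ => L \ T) (fun M _ => L \ M) ?_ ?_ ?_ ?_ ?_
    · intro T _
      exact Finset.mem_filter.2 ⟨Finset.mem_univ _, Set.diff_subset⟩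
    · intro T _
      exact Finset.mem_filter.2 ⟨Finset.mem_univ _, Set.diff_subset⟩
    · intro T hT
      exact Set.diff_diff_cancel_left (Finset.mem_filter.1 hT).2
    · intro T hT
      exact Set.diff_diff_cancel_left (Finset.mem_filter.1 hT).2
    · intro T _
      rfl
  rw [h1, alt, if_neg hL.ne_empty]

end moeb

theorem mbi : MbiStmt := by
  intro A _ F
  classical
  have := Fintype.ofFinite A
  refine ⟨fun τ => ?_, fun L h => ?_, fun L q hL => ?_, ?_⟩
  · rw [show ∑ᶠ L ∈ {L : Set A | L ⊆ τ}, mob F L =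
      ∑ L ∈ Finset.univ.filter (fun L : Set A => L ⊆ τ), mob F L from
        fin_P (fun L : Set A => L ⊆ τ) _]
    have h1 : ∀ L, mob F L = ∑ T : Set A, if T ⊆ L then (-1) ^ (L \ T).ncard * F T else 0 := by
      intro L
      rw [mob_eq, Finset.sum_filter]
    rw [Finset.sum_congr rfl fun L _ => h1 L, Finset.sum_comm]
    have h2 : ∀ T : Set A, ∑ L ∈ Finset.univ.filter (fun L : Set A => L ⊆ τ),
        (if T ⊆ L then (-1) ^ (L \ T).ncard * F T else 0) = if T = τ then F τ else 0 := by
      intro T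
      rw [← Finset.sum_filter, Finset.filter_filter]
      by_cases hT : T ⊆ τ
      · have h3 := alt2 T τ hT
        rw [← Finset.sum_mul]
        have h4 : (Finset.univ.filter fun L : Set A => L ⊆ τ ∧ T ⊆ L) =
            Finset.univ.filter fun L : Set A => T ⊆ L ∧ L ⊆ τ := by
          ext L
          simp only [Finset.mem_filter, Finset.mem_univ, true_and]
          exact and_comm
        rw [h4, h3]
        by_cases h : T = τ
        · rw [if_pos h, if_pos h, h, one_mul]
        · rw [if_neg h, if_neg h, zero_mul]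
      · rw [if_neg (fun h : T = τ => hT h.subset)]
        refine Finset.sum_eq_zero fun L hL => ?_
        exfalso
        have h := (Finset.mem_filter.1 hL).2
        exact hT (h.2.trans h.1)
    rw [Finset.sum_congr rfl fun T _ => h2 T]
    simp
  · rw [mob_eq]
    refine Finset.sum_eq_zero fun T hT => ?_
    rw [h T (Finset.mem_filter.1 hT).2, mul_zero]
  · rw [mob_eq, mob_eq]
    have h1 : ∑ T ∈ Finset.univ.filter (fun T : Set A => T ⊆ L), (-1) ^ (L \ T).ncard * (F T - q) =
        ∑ T ∈ Finset.univ.filter (fun T : Set A => T ⊆ L), (-1) ^ (L \ T).ncard * F T -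
        (∑ T ∈ Finset.univ.filter (fun T : Set A => T ⊆ L), (-1 : ℚ) ^ (L \ T).ncard) * q := by
      rw [Finset.sum_mul, ← Finset.sum_sub_distrib]
      exact Finset.sum_congr rfl fun T _ => by ring
    rw [h1, alt3 L hL, zero_mul, sub_zero]
  · rw [mob_eq]
    have h1 : (Finset.univ.filter fun T : Set A => T ⊆ ∅) = {∅} := by
      ext T
      simp
    rw [h1, Finset.sum_singleton]
    simp

end Pool.Agent.PP.SO.H9
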